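import Pool.Agent.H14.AVS.S1

/-!
# AVS, module DIX: the difference of two points of the covering
-/

set_option autoImplicit false

namespace Pool.AVS

open Polynomial Matrix Pool.AVR

namespace DIX

variable {K : Type} [Field K]

/-- A vector orthogonal to two independent isotropic vectors is a multiple of their cross
product. -/
theorem par (a0 a1 a2 b0 b1 b2 v0 v1 v2 : K) (hA : 2 * a0 * a2 + a1 ^ 2 = 0)
    (ha : a0 * b2 + a1 * b1 + a2 * b0 ≠ 0)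
    (ho : v0 * a0 + v1 * a1 + v2 * a2 = 0) (ho' : v0 * b0 + v1 * b1 + v2 * b2 = 0) :
    ∃ y : K, v0 = y * (a1 * b2 - a2 * b1) ∧ v1 = y * (a2 * b0 - a0 * b2) ∧
      v2 = y * (a0 * b1 - a1 * b0) := by
  have hc : 2 * (a1 * b2 - a2 * b1) * (a0 * b1 - a1 * b0) + (a2 * b0 - a0 * b2) ^ 2 =
      (a0 * b2 + a1 * b1 + a2 * b0) ^ 2 := by
    linear_combination (-(2 * b0 * b2 + b1 ^ 2)) * hA
  set c0 := a1 * b2 - a2 * b1 with hc0
  set c1 := a2 * b0 - a0 * b2 with hc1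
  set c2 := a0 * b1 - a1 * b0 with hc2
  set s := a0 * b2 + a1 * b1 + a2 * b0 with hs
  have x12 : v1 * c2 - v2 * c1 = 0 := by
    rw [hc1, hc2]; linear_combination a0 * ho' - b0 * ho
  have x20 : v2 * c0 - v0 * c2 = 0 := by
    rw [hc0, hc2]; linear_combination a1 * ho' - b1 * ho
  have x01 : v0 * c1 - v1 * c0 = 0 := by
    rw [hc0, hc1]; linear_combination a2 * ho' - b2 * ho
  have hs2 : s ^ 2 ≠ 0 := pow_ne_zero 2 ha
  refine ⟨(v0 * c2 + v1 * c1 + v2 * c0) / s ^ 2, ?_, ?_, ?_⟩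
  · rw [div_mul_eq_mul_div, eq_div_iff hs2]
    linear_combination (-v0) * hc + c1 * x01 - c0 * x20
  · rw [div_mul_eq_mul_div, eq_div_iff hs2]
    linear_combination (-v1) * hc - c2 * x01 + c0 * x12
  · rw [div_mul_eq_mul_div, eq_div_iff hs2]
    linear_combination (-v2) * hc + c2 * x20 - c1 * x12

/-- The Gram determinant. -/
theorem gram (m00 m01 m02 m11 m12 m22 a0 a1 a2 b0 b1 b2 w w' y : K)
    (hA : 2 * a0 * a2 + a1 ^ 2 = 0) (ha : a0 * b2 + a1 * b1 + a2 * b0 ≠ 0)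
    (h1 : a0 * (m00 * a0 + m01 * a1 + m02 * a2) + a1 * (m01 * a0 + m11 * a1 + m12 * a2) +
      a2 * (m02 * a0 + m12 * a1 + m22 * a2) = w ^ 2)
    (h2 : b0 * (m00 * b0 + m01 * b1 + m02 * b2) + b1 * (m01 * b0 + m11 * b1 + m12 * b2) +
      b2 * (m02 * b0 + m12 * b1 + m22 * b2) = w' ^ 2)
    (h3 : a0 * (m00 * b0 + m01 * b1 + m02 * b2) + a1 * (m01 * b0 + m11 * b1 + m12 * b2) +
      a2 * (m02 * b0 + m12 * b1 + m22 * b2) = -(w * w'))
    (e0 : m00 * (w' * a0 + w * b0) + m01 * (w' * a1 + w * b1) + m02 * (w' * a2 + w * b2) =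
      y * (a1 * b2 - a2 * b1))
    (e1 : m01 * (w' * a0 + w * b0) + m11 * (w' * a1 + w * b1) + m12 * (w' * a2 + w * b2) =
      y * (a2 * b0 - a0 * b2))
    (e2 : m02 * (w' * a0 + w * b0) + m12 * (w' * a1 + w * b1) + m22 * (w' * a2 + w * b2) =
      y * (a0 * b1 - a1 * b0)) :
    y ^ 2 = -(m00 * m11 * m22 + 2 * m01 * m02 * m12 - m00 * m12 ^ 2 - m11 * m02 ^ 2 -
      m22 * m01 ^ 2) := by
  have hc : 2 * (a1 * b2 - a2 * b1) * (a0 * b1 - a1 * b0) + (a2 * b0 - a0 * b2) ^ 2 =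
      (a0 * b2 + a1 * b1 + a2 * b0) ^ 2 := by
    linear_combination (-(2 * b0 * b2 + b1 ^ 2)) * hA
  obtain ⟨c0, hc0⟩ : ∃ c0, c0 = a1 * b2 - a2 * b1 := ⟨_, rfl⟩
  obtain ⟨c1, hc1⟩ : ∃ c1, c1 = a2 * b0 - a0 * b2 := ⟨_, rfl⟩
  obtain ⟨c2, hc2⟩ : ∃ c2, c2 = a0 * b1 - a1 * b0 := ⟨_, rfl⟩
  obtain ⟨s, hs⟩ : ∃ s, s = a0 * b2 + a1 * b1 + a2 * b0 := ⟨_, rfl⟩
  rw [← hc0, ← hc1, ← hc2, ← hs] at hc
  rw [← hc0] at e0
  rw [← hc1] at e1
  rw [← hc2] at e2
  rw [← hs] at ha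
  obtain ⟨p, hp⟩ : ∃ p, p = a0 * (m00 * c2 + m01 * c1 + m02 * c0) +
    a1 * (m01 * c2 + m11 * c1 + m12 * c0) + a2 * (m02 * c2 + m12 * c1 + m22 * c0) := ⟨_, rfl⟩
  obtain ⟨q, hq⟩ : ∃ q, q = b0 * (m00 * c2 + m01 * c1 + m02 * c0) +
    b1 * (m01 * c2 + m11 * c1 + m12 * c0) + b2 * (m02 * c2 + m12 * c1 + m22 * c0) := ⟨_, rfl⟩
  obtain ⟨r, hr⟩ : ∃ r, r = c2 * (m00 * c2 + m01 * c1 + m02 * c0) +
    c1 * (m01 * c2 + m11 * c1 + m12 * c0) + c0 * (m02 * c2 + m12 * c1 + m22 * c0) := ⟨_, rfl⟩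
  have hG : (!![a0, a1, a2; b0, b1, b2; c2, c1, c0] *
      !![m00, m01, m02; m01, m11, m12; m02, m12, m22]) * !![a0, b0, c2; a1, b1, c1; a2, b2, c0] =
      !![w ^ 2, -(w * w'), p; -(w * w'), w' ^ 2, q; p, q, r] := by
    ext i j
    fin_cases i <;> fin_cases j <;> simp [Matrix.mul_apply, Fin.sum_univ_three]
    · linear_combination h1
    · linear_combination h3
    · linear_combination -hp
    · linear_combination h3
    · linear_combination h2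
    · linear_combination -hq
    · linear_combination -hp
    · linear_combination -hq
    · linear_combination -hr
  have hdet := congrArg Matrix.det hG
  rw [Matrix.det_mul, Matrix.det_mul] at hdet
  have d1 : (!![a0, a1, a2; b0, b1, b2; c2, c1, c0] : Matrix (Fin 3) (Fin 3) K).det = s ^ 2 := by
    rw [Matrix.det_fin_three]
    simp
    rw [← hc, hc0, hc1, hc2]
    ring
  have d2 : (!![a0, b0, c2; a1, b1, c1; a2, b2, c0] : Matrix (Fin 3) (Fin 3) K).det = s ^ 2 := by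
    rw [Matrix.det_fin_three]
    simp
    rw [← hc, hc0, hc1, hc2]
    ring
  rw [d1, d2, Matrix.det_fin_three, Matrix.det_fin_three] at hdet
  simp at hdet
  have hv : w * q + w' * p = y * s ^ 2 := by
    rw [← hc, hp, hq]
    linear_combination c2 * e0 + c1 * e1 + c0 * e2
  have hs4 : s ^ 4 ≠ 0 := pow_ne_zero 4 ha
  apply mul_left_cancel₀ hs4
  linear_combination hdet - (w * q + w' * p + y * s ^ 2) * hv

end DIX

theorem dix_thm : DIXStmt := by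
  intro K _ h2 B z z' w w' hB hz hz' ha
  have b01 : B 1 0 = B 0 1 := by
    have := congrFun (congrFun hB 0) 1
    simpa [Matrix.transpose_apply] using this
  have b02 : B 2 0 = B 0 2 := by
    have := congrFun (congrFun hB 0) 2
    simpa [Matrix.transpose_apply] using this
  have b12 : B 2 1 = B 1 2 := by
    have := congrFun (congrFun hB 1) 2
    simpa [Matrix.transpose_apply] using this
  obtain ⟨-, hA, hw⟩ := hz
  obtain ⟨-, hA', hw'⟩ := hz'
  have hx : ∃ x : K, x * bil (AA K) z z' = bil B z z' - w * w' :=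
    ⟨(bil B z z' - w * w') / bil (AA K) z z', div_mul_cancel₀ _ ha⟩
  obtain ⟨x, hx⟩ := hx
  have ha0 := ha
  have hx0 := hx
  simp [bil, AA, Matrix.mulVec, dotProduct, Fin.sum_univ_three, Matrix.of_apply,
    b01, b02, b12] at hA hA' ha hw hw' hx
  have gA : 2 * z 0 * z 2 + z 1 ^ 2 = 0 := by linear_combination hA
  have ga : z 0 * z' 2 + z 1 * z' 1 + z 2 * z' 0 ≠ 0 := by
    intro h; apply ha; linear_combination h
  have h1 : z 0 * (-B 0 0 * z 0 + -B 0 1 * z 1 + (x - B 0 2) * z 2) +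
      z 1 * (-B 0 1 * z 0 + (x - B 1 1) * z 1 + -B 1 2 * z 2) +
      z 2 * ((x - B 0 2) * z 0 + -B 1 2 * z 1 + -B 2 2 * z 2) = w ^ 2 := by
    linear_combination x * hA - hw
  have h2' : z' 0 * (-B 0 0 * z' 0 + -B 0 1 * z' 1 + (x - B 0 2) * z' 2) +
      z' 1 * (-B 0 1 * z' 0 + (x - B 1 1) * z' 1 + -B 1 2 * z' 2) +
      z' 2 * ((x - B 0 2) * z' 0 + -B 1 2 * z' 1 + -B 2 2 * z' 2) = w' ^ 2 := by
    linear_combination x * hA' - hw'
  have h3 : z 0 * (-B 0 0 * z' 0 + -B 0 1 * z' 1 + (x - B 0 2) * z' 2) +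
      z 1 * (-B 0 1 * z' 0 + (x - B 1 1) * z' 1 + -B 1 2 * z' 2) +
      z 2 * ((x - B 0 2) * z' 0 + -B 1 2 * z' 1 + -B 2 2 * z' 2) = -(w * w') := by
    linear_combination hx
  obtain ⟨y, e0, e1, e2⟩ := DIX.par (z 0) (z 1) (z 2) (z' 0) (z' 1) (z' 2)
    (-B 0 0 * (w' * z 0 + w * z' 0) + -B 0 1 * (w' * z 1 + w * z' 1) +
      (x - B 0 2) * (w' * z 2 + w * z' 2))
    (-B 0 1 * (w' * z 0 + w * z' 0) + (x - B 1 1) * (w' * z 1 + w * z' 1) +
      -B 1 2 * (w' * z 2 + w * z' 2))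
    ((x - B 0 2) * (w' * z 0 + w * z' 0) + -B 1 2 * (w' * z 1 + w * z' 1) +
      -B 2 2 * (w' * z 2 + w * z' 2)) gA ga
    (by linear_combination w' * h1 + w * h3) (by linear_combination w' * h3 + w * h2')
  have hy := DIX.gram _ _ _ _ _ _ _ _ _ _ _ _ _ _ _ gA ga h1 h2' h3 e0 e1 e2
  refine ⟨x, y, ⟨ha0, hx0, ?_⟩, ?_⟩
  · rw [cross_apply]
    ext i
    fin_cases i
    · simp [AA, Matrix.mulVec, dotProduct, Fin.sum_univ_three, Matrix.of_apply, b01, b02, b12]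
      linear_combination e0
    · simp [AA, Matrix.mulVec, dotProduct, Fin.sum_univ_three, Matrix.of_apply, b01, b02, b12]
      linear_combination e1
    · simp [AA, Matrix.mulVec, dotProduct, Fin.sum_univ_three, Matrix.of_apply, b01, b02, b12]
      linear_combination e2
  · simp only [OnC, ia, ib, ic]
    rw [hy, Matrix.det_fin_three, b01, b02, b12]
    ring

end Pool.AVS
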